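import Pool.Agent.TH869.SQ.M5

/-!
# Moments and signs of the traces of Frobenius for almost all members of the families `y² = h(x) (x - n)`

For `h ∈ ℤ[x]` separable of even degree `2g > 0` the smooth projective curve `C_n : y² = h(x) (x - n)` has genus `g` for
`h(n) ≠ 0`. For `g = 2` its Jacobian is an abelian surface, and for two polynomials `h, k` of degree `2` the product of the
elliptic curves is one. The results hold for every `g`.
-/

set_option autoImplicit false

namespace Pool.Agent.Results.MP_6dc561_nt.MomentsAndSigns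

open Finset Polynomial

/-- The primes `p ≤ y`. -/
def primes (y : ℕ) : Finset ℕ := (range (y + 1)).filter Nat.Prime

/-- The number of the solutions `(x, y)` of `y² = h(x) (x - n)` modulo `p`. -/
def points (h : ℤ[X]) (p n : ℕ) : ℕ :=
  ((range p ×ˢ range p).filter
    (fun xy : ℕ × ℕ => (p : ℤ) ∣ (xy.2 : ℤ) ^ 2 - h.eval (xy.1 : ℤ) * ((xy.1 : ℤ) - n))).card

/-- `p` is an odd prime, and `h(x) (x - n)` modulo `p` is separable of degree `deg h + 1`; so the curve `y² = h(x) (x - n)` has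
good reduction at `p`. -/
def Good (h : ℤ[X]) (p n : ℕ) : Prop :=
  p.Prime ∧ p ≠ 2 ∧
    ((h * (X - C (n : ℤ))).map (Int.castRingHom (ZMod p))).natDegree = h.natDegree + 1 ∧
    ((h * (X - C (n : ℤ))).map (Int.castRingHom (ZMod p))).Separable

open Classical in
/-- The normalised trace `(p + 1 - #C_n(F_p)) / √p` of the Frobenius at `p` of the Jacobian of the smooth projective curve
`C_n : y² = h(x) (x - n)` (`deg h` even, so that there is one point at infinity), if `p` is good, and `0` otherwise. -/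
noncomputable def trace (h : ℤ[X]) (p n : ℕ) : ℝ :=
  if Good h p n then (((p : ℝ) + 1) - (points h p n + 1)) / √p else 0

/-- `h` is separable over the rationals, of even and positive degree. -/
def Adm (h : ℤ[X]) : Prop :=
  Even h.natDegree ∧ 0 < h.natDegree ∧ (h.map (Int.castRingHom ℚ)).Separable

/-- For all `N ≥ 1` the property `P N n y` holds for all `n ≤ N` with at most `C N ^ (1 - κ)` exceptions and all `y ≤ N ^ κ`. -/
def AlmostAll (κ C : ℝ) (P : ℕ → ℕ → ℕ → Prop) : Prop :=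
  ∀ N : ℕ, 1 ≤ N → ∃ E : Finset ℕ, (E.card : ℝ) ≤ C * (N : ℝ) ^ (1 - κ) ∧
    ∀ n : ℕ, n ≤ N → n ∉ E → ∀ y : ℕ, (y : ℝ) ≤ (N : ℝ) ^ κ → P N n y

/-- 1. Let `h` be admissible and `0 < δ ≤ 1`. For some `κ > 0` and `C`, for all `n ≤ N` but at most `C N ^ (1 - κ)` and all
`y ≤ N ^ κ`, the sum over `p ≤ y` of the normalised traces of `C_n` is at most `C y ^ (1/2 + δ) (1 + log N) ^ (1/2)` in absolute
value, and the sum of their squares differs from `π(y)` by at most as much.
2. If `h`, `k` are admissible and `k` is not a rational multiple of `h`, so is the sum of the products of the traces of the two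
curves.
3. Let `h` be admissible. There is `c > 0` such that for every `A > 1`, with some `κ > 0` and `C`, for all `n ≤ N` but at most
`C N ^ (1 - κ)`: if `(log N) ^ A ≤ y ≤ N ^ κ`, at least `c π(y)` of the primes `p ≤ y` have trace greater than `c`, and at least
`c π(y)` have trace less than `-c`. -/
theorem result :
    (∀ h : ℤ[X], Adm h → ∀ δ : ℝ, 0 < δ → δ ≤ 1 → ∃ κ C : ℝ, 0 < κ ∧ 0 < C ∧
      AlmostAll κ C (fun N n y =>
        |∑ p ∈ primes y, trace h p n| ≤ C * ((y : ℝ) ^ (1 / 2 + δ) * √(1 + Real.log N)) ∧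
        |∑ p ∈ primes y, trace h p n ^ 2 - (primes y).card| ≤
          C * ((y : ℝ) ^ (1 / 2 + δ) * √(1 + Real.log N)))) ∧
    (∀ h k : ℤ[X], Adm h → Adm k →
      (∀ c : ℚ, k.map (Int.castRingHom ℚ) ≠ C c * h.map (Int.castRingHom ℚ)) →
      ∀ δ : ℝ, 0 < δ → δ ≤ 1 → ∃ κ C : ℝ, 0 < κ ∧ 0 < C ∧
      AlmostAll κ C (fun N n y =>
        |∑ p ∈ primes y, trace h p n * trace k p n| ≤
          C * ((y : ℝ) ^ (1 / 2 + δ) * √(1 + Real.log N)))) ∧
    (∀ h : ℤ[X], Adm h → ∃ c : ℝ, 0 < c ∧ ∀ A : ℝ, 1 < A → ∃ κ C : ℝ, 0 < κ ∧ 0 < C ∧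
      AlmostAll κ C (fun N n y => Real.log N ^ A ≤ y →
        c * (primes y).card ≤ ((primes y).filter (fun p => c < trace h p n)).card ∧
        c * (primes y).card ≤ ((primes y).filter (fun p => trace h p n < -c)).card)) := by
  have htr : trace = Pool.Agent.TH869.SQ.tr := rfl
  have hpr : primes = Pool.Agent.TH869.EVF.PR := rfl
  refine ⟨?_, ?_, ?_⟩
  · rintro h ⟨h1, h2, h3⟩ δ hδ hδ1
    obtain ⟨κ, C, g1, _, g3, H⟩ := Pool.Agent.TH869.SQ.moments h h1 h2 h3 δ hδ hδ1
    exact ⟨κ, C, g1, g3, H⟩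
  · rintro h k ⟨h1, h2, h3⟩ ⟨k1, k2, k3⟩ hk δ hδ hδ1
    obtain ⟨κ, C, g1, _, g3, H⟩ := Pool.Agent.TH869.SQ.mixed h k h1 k1 h2 k2 h3 k3 hk δ hδ hδ1
    exact ⟨κ, C, g1, g3, H⟩
  · rintro h ⟨h1, h2, h3⟩
    obtain ⟨c, hc, H⟩ := Pool.Agent.TH869.SQ.signs h h1 h2 h3
    refine ⟨c, hc, ?_⟩
    intro A hA
    obtain ⟨κ, C, g1, g3, H'⟩ := H A hA
    refine ⟨κ, C, g1, g3, ?_⟩
    intro N hN
    obtain ⟨E, e1, e2⟩ := H' N hN
    refine ⟨E, e1, ?_⟩
    intro n hn hnE y hy hyA
    rw [hpr, htr]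
    exact e2 n hn hnE y hyA hy

end Pool.Agent.Results.MP_6dc561_nt.MomentsAndSigns
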