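import Pool.Agent.TH375.KL.FamGauss

set_option autoImplicit false

/-!
# Sato-Tate moments for almost all curves of genus two

For `f ∈ ℤ[X]` let `t_p(f) = ∑_{x mod p} (f(x) / p)`, so that `#{y² = f(x)}(𝔽_p) = p + t_p(f)`.  For a fixed `g` we
consider the polynomials `f = g + c₀ + c₁ X + … + c_{m-1} X^{m-1}` with `c ∈ ℤ^m` in a box.  If `2k ≤ m` we prove that
for almost all members the averages over the primes `p ≤ x` of `(t_p(f) / √p)^k` are the moments of
the standard normal distribution, with a square root error, for all `x ≤ √N` simultaneously.  For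
`g = 0`, `m = 6` these are all quintics, and the moments `0, 1, 0` for `k = 1, 2, 3` are those of `USp(4)`.
-/

namespace Pool.Agent.Results.MP_6dc561_nt.SecondMomentGenusTwo

open Finset

/-- the character sum `t_p(f)`; the affine curve `y² = f(x)` has `p + t_p(f)` points over `𝔽_p`, `p` odd -/
def charSum (p : ℕ) (f : Polynomial ℤ) : ℤ := ∑ x ∈ range p, jacobiSym (f.eval (x : ℤ)) p

/-- the member `g + c₀ + c₁ X + … + c_{m-1} X^{m-1}` of the family -/
noncomputable def member {m : ℕ} (g : Polynomial ℤ) (c : Fin m → ℤ) : Polynomial ℤ :=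
  g + ∑ j : Fin m, Polynomial.C (c j) * Polynomial.X ^ (j : ℕ)

/-- the moments of the standard normal distribution: `1, 0, 1, 0, 3, 0, 15, …` -/
noncomputable def normalMoment : ℕ → ℝ
  | 0 => 1
  | 1 => 0
  | k + 2 => ((k : ℝ) + 1) * normalMoment k

theorem gm_eq : ∀ k, TH375.KL.gm k = normalMoment k
  | 0 => by rw [TH375.KL.gm, normalMoment]
  | 1 => by rw [TH375.KL.gm, normalMoment]
  | k + 2 => by rw [TH375.KL.gm, normalMoment, gm_eq k]

/-- the weights -/
noncomputable def wt (p : ℕ) (y : ZMod p) : ℝ := (jacobiSym (y.val : ℤ) p : ℝ) / Real.sqrt p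

theorem jac_val {p : ℕ} [hp : Fact p.Prime] (y : ZMod p) :
    jacobiSym (y.val : ℤ) p = quadraticChar (ZMod p) y := by
  rw [TH375.KL.jac_eq]
  congr 1
  rw [Int.cast_natCast, ZMod.natCast_zmod_val]

theorem sq_char {p : ℕ} [hp : Fact p.Prime] :
    ∑ y : ZMod p, ((quadraticChar (ZMod p) y : ℤ) : ℝ) ^ 2 = p - 1 := by
  classical
  have h1 : ∀ y : ZMod p, ((quadraticChar (ZMod p) y : ℤ) : ℝ) ^ 2 =
      1 - if y = 0 then (1 : ℝ) else 0 := by
    intro y
    split_ifs with h
    · rw [h]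
      simp
    · have := quadraticChar_sq_one h
      have h2 : ((quadraticChar (ZMod p) y : ℤ) : ℝ) ^ 2 = 1 := by exact_mod_cast this
      rw [h2, sub_zero]
  rw [sum_congr rfl fun y _ => h1 y, sum_sub_distrib, sum_const, card_univ, ZMod.card,
    sum_ite_eq' univ (0 : ZMod p)]
  simp

theorem wt_good {p : ℕ} [hp : Fact p.Prime] (h2 : p ≠ 2) : TH375.KL.Good 1 p (wt p) := by
  have hp1 : (1 : ℝ) ≤ p := by exact_mod_cast hp.out.one_le
  have hp0 : (0 : ℝ) < p := by linarith
  have hs1 : 1 ≤ Real.sqrt p := Real.one_le_sqrt.2 hp1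
  have hs0 : 0 < Real.sqrt p := by linarith
  have hss : Real.sqrt p * Real.sqrt p = p := Real.mul_self_sqrt hp0.le
  have hsum : ∑ y : ZMod p, wt p y ^ 2 = (p - 1) / p := by
    unfold wt
    have h3 : ∀ y : ZMod p, ((jacobiSym (y.val : ℤ) p : ℝ) / Real.sqrt p) ^ 2 =
        ((quadraticChar (ZMod p) y : ℤ) : ℝ) ^ 2 / p := by
      intro y
      rw [jac_val, div_pow, sq (Real.sqrt p), hss]
    rw [sum_congr rfl fun y _ => h3 y, ← sum_div, sq_char]
  refine ⟨?_, ?_, ?_, ?_⟩
  · intro y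
    unfold wt
    rw [abs_div, abs_of_pos hs0]
    refine div_le_div_of_nonneg_right ?_ hs0.le
    have h3 := jacobiSym.trichotomy (y.val : ℤ) p
    rcases h3 with h3 | h3 | h3 <;> rw [h3] <;> norm_num
  · unfold wt
    rw [← sum_div, sum_congr rfl fun y _ => by rw [jac_val]]
    have h3 : ringChar (ZMod p) ≠ 2 := by
      rw [ZMod.ringChar_zmod_n]
      exact h2
    have h4 := quadraticChar_sum_zero h3
    have h5 : ∑ y : ZMod p, ((quadraticChar (ZMod p) y : ℤ) : ℝ) = 0 := by exact_mod_cast h4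
    rw [h5, zero_div]
  · rw [hsum, pow_one, mul_div_cancel₀ _ hp0.ne']
    linarith
  · rw [hsum, pow_one, mul_div_cancel₀ _ hp0.ne']
    have h1 : (1 - 1 / Real.sqrt p) * p = p - Real.sqrt p := by
      have h2 : (1 / Real.sqrt p) * p = Real.sqrt p := by
        rw [one_div, inv_mul_eq_div, div_eq_iff hs0.ne']
        exact hss.symm
      linear_combination -h2
    rw [h1]
    linarith

/-- the family in the variable `X 0` -/
noncomputable def gg (g : Polynomial ℤ) : MvPolynomial (Fin 1) ℤ :=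
  Polynomial.aeval (MvPolynomial.X 0) g

theorem val_eq {m p : ℕ} [hp : Fact p.Prime] (g : Polynomial ℤ) (c : Fin m → ℤ)
    (u : Fin 1 → ZMod p) :
    TH375.KL.famVal (gg g) (fun j : Fin m => MvPolynomial.X 0 ^ (j : ℕ)) p c u =
      Polynomial.aeval (u 0) (member g c) := by
  unfold TH375.KL.famVal member gg
  rw [← Polynomial.aeval_algHom_apply]
  simp

theorem sum_wt {m p : ℕ} [hp : Fact p.Prime] (g : Polynomial ℤ) (c : Fin m → ℤ) :
    ∑ u : Fin 1 → ZMod p,
      wt p (TH375.KL.famVal (gg g) (fun j : Fin m => MvPolynomial.X 0 ^ (j : ℕ)) p c u) =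
      (charSum p (member g c) : ℝ) / Real.sqrt p := by
  classical
  unfold wt charSum
  rw [← sum_div]
  congr 1
  push_cast
  rw [← (Equiv.funUnique (Fin 1) (ZMod p)).symm.sum_comp, ← TH375.KL.sum_range_zmod
    (f := fun y => ((jacobiSym ((TH375.KL.famVal (gg g)
      (fun j : Fin m => MvPolynomial.X 0 ^ (j : ℕ)) p c
        ((Equiv.funUnique (Fin 1) (ZMod p)).symm y)).val : ℤ) p : ℤ) : ℝ))]
  refine sum_congr rfl fun x _ => ?_
  rw [jac_val, val_eq, TH375.KL.jac_eq]
  congr 2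
  simp only [Equiv.funUnique_symm_apply, uniqueElim_const]
  have h := Polynomial.eval_intCast_map (algebraMap ℤ (ZMod p)) (member g c) (x : ℤ)
  rw [Int.cast_natCast] at h
  rw [Polynomial.aeval_def, Polynomial.eval₂_eq_eval_map, h]
  simp

/-- **Sato-Tate moments for almost all hyperelliptic curves**, in particular of genus two -/
theorem result (m k : ℕ) (hk : 1 ≤ k) (hm : 2 * k ≤ m) : ∃ C : ℝ, 0 < C ∧
    ∀ (g : Polynomial ℤ) (A : Fin m → ℤ) (N z : ℕ), z ^ 2 ≤ N → ∀ K : ℝ, 0 < K →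
    ({c : Fin m → ℤ | (∀ i, A i < c i ∧ c i ≤ A i + N) ∧ ∃ x : ℕ, 1 ≤ x ∧ x ≤ z ∧
      K * (x * ((Nat.log 2 x : ℝ) + 1) ^ 5) <
        (∑ p ∈ (range (x + 1)).filter fun p => p.Prime ∧ p ≠ 2,
          (((charSum p (member g c) : ℝ) / Real.sqrt p) ^ k - normalMoment k)) ^ 2}.ncard : ℝ) ≤
      C * (N : ℝ) ^ m / K := by
  obtain ⟨C, hC, h⟩ := TH375.KL.fam_gauss 1 m k (2 * k - 1) (by omega)
  refine ⟨C, hC, ?_⟩
  intro g A N z hzN K hK
  have h1 := h 2 wt (fun p hp hp2 => wt_good hp2) (gg g)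
    (fun j : Fin m => MvPolynomial.X 0 ^ (j : ℕ)) ?_ A N z hzN K hK
  · refine le_trans (le_of_eq ?_) h1
    congr 2
    ext c
    rw [Set.mem_ofPred_eq, Set.mem_ofPred_eq]
    refine and_congr_right fun _ => exists_congr fun x => and_congr_right fun _ =>
      and_congr_right fun _ => ?_
    have h2 : (TH375.KL.Prm x).filter (· ≠ 2) =
        (range (x + 1)).filter fun p => p.Prime ∧ p ≠ 2 := by
      unfold TH375.KL.Prm
      rw [filter_filter]
    rw [h2]
    have h3 : ∑ p ∈ (range (x + 1)).filter (fun p => p.Prime ∧ p ≠ 2),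
        (TH375.KL.fam wt (gg g) (fun j : Fin m => MvPolynomial.X 0 ^ (j : ℕ)) k p c -
          TH375.KL.gm k) =
        ∑ p ∈ (range (x + 1)).filter (fun p => p.Prime ∧ p ≠ 2),
          (((charSum p (member g c) : ℝ) / Real.sqrt p) ^ k - normalMoment k) := by
      refine sum_congr rfl fun p hp => ?_
      rw [mem_filter] at hp
      have : Fact p.Prime := ⟨hp.2.1⟩
      unfold TH375.KL.fam
      rw [dif_pos hp.2.1, sum_wt, gm_eq]
    rw [h3]
    rfl
  · intro α hα
    rw [Fin.sum_univ_one] at hα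
    refine ⟨⟨α 0, by omega⟩, ?_⟩
    rw [Fin.prod_univ_one]

end Pool.Agent.Results.MP_6dc561_nt.SecondMomentGenusTwo
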