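import Mathlib

/-!
# Abelian surfaces: signs and sizes of the traces of Frobenius

Let `A` be an abelian surface over a totally real field `K` with `End(A_K̄) = ℤ` (Sato-Tate group
`USp(4)`, the only case in which the conjecture is open over `K`). For a prime `v` of good reduction
the normalised Frobenius polynomial is `(T² - x_v T + 1) (T² - y_v T + 1)` with `x_v, y_v ∈ [-2, 2]`;
`a_v = x_v + y_v` is the normalised trace of Frobenius on `V = H¹`, and `w_v = x_v y_v + 1` is its
trace on the five-dimensional representation `W`, where `Λ²V = 1 ⊕ W`.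

`A` is potentially modular (Boxer, Calegari, Gee, Pilloni), so the traces on `V`, `W`, `V ⊗ V - 1`,
`V ⊗ W`, `W ⊗ W - 1` have average zero over the primes of `K`, and over the primes in a ray class
(Rankin-Selberg theory on `GL(4) × GL(4)`, `GL(4) × GL(5)`, `GL(5) × GL(5)` and Brauer induction).
Nothing is known about the averages for the other irreducible representations of `USp(4)`, such as
`Sym³V`. From these five averages (`LowMoments`) we prove:

* `a_v > 0` for a set of `v` of lower density at least `0.063`, and the same for `a_v < 0`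
  (the optimal constant for these five averages is `(21 - 6 √6) / 100 = 0.06303...`);
* for every `t < 2/3` one has `a_v > t` for a set of positive lower density, at least
  `(2 - 3 t) / (16 (4 - t))`, and the same for `a_v < -t` (for `t > 2/3` the five averages do not
  imply that `a_v > t` for any `v`);
* `x_v y_v < 0` for at least half of the primes;
* `|x_v - y_v| > 1` for at least half of the primes.
-/

set_option autoImplicit false

namespace Pool.Agent.Results.MP_6dc561_nt.SignsOfTraces

open NumberField IsDedekindDomain Filter Topology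

section
variable {K : Type} [Field K] [NumberField K]

/-- The average of `g` over the primes of `K` of norm at most `N`. -/
noncomputable def avg (g : HeightOneSpectrum (𝓞 K) → ℝ) (N : ℕ) : ℝ :=
  (∑ᶠ v : {v : HeightOneSpectrum (𝓞 K) // Ideal.absNorm v.asIdeal ≤ N}, g v.1) /
    (Nat.card {v : HeightOneSpectrum (𝓞 K) // Ideal.absNorm v.asIdeal ≤ N} : ℝ)

/-- The set `A` of primes of `K` has density `δ`. -/
def HasDensity (A : Set (HeightOneSpectrum (𝓞 K))) (δ : ℝ) : Prop :=
  Tendsto (avg (A.indicator fun _ => 1)) atTop (𝓝 δ)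

/-- The set `A` of primes of `K` has lower density at least `δ`. -/
def LowerDensity (A : Set (HeightOneSpectrum (𝓞 K))) (δ : ℝ) : Prop :=
  ∀ ε : ℝ, 0 < ε → ∀ᶠ N in atTop, δ - ε ≤ avg (A.indicator fun _ => 1) N

/-- The averages of `a`, `w`, `a² - 1`, `a w`, `w² - 1` over the primes of `A` are zero. For the traces
`a` and `w` of Frobenius on `V` and `W` these are the traces on the representations
`V`, `W`, `V ⊗ V - 1`, `V ⊗ W`, `W ⊗ W - 1`, whose averages over the group `USp(4)` vanish. -/
structure LowMoments (A : Set (HeightOneSpectrum (𝓞 K))) (a w : HeightOneSpectrum (𝓞 K) → ℝ) :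
    Prop where
  V : Tendsto (avg (A.indicator fun v => a v)) atTop (𝓝 0)
  W : Tendsto (avg (A.indicator fun v => w v)) atTop (𝓝 0)
  VV : Tendsto (avg (A.indicator fun v => a v ^ 2 - 1)) atTop (𝓝 0)
  VW : Tendsto (avg (A.indicator fun v => a v * w v)) atTop (𝓝 0)
  WW : Tendsto (avg (A.indicator fun v => w v ^ 2 - 1)) atTop (𝓝 0)

/-! ### averages -/

theorem finite_le (N : ℕ) :
    Finite {v : HeightOneSpectrum (𝓞 K) // Ideal.absNorm v.asIdeal ≤ N} := by
  have h : {I : Ideal (𝓞 K) | Ideal.absNorm I ≤ N}.Finite := Ideal.finite_setOfPred_absNorm_le N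
  have h' : Finite {I : Ideal (𝓞 K) // Ideal.absNorm I ≤ N} := h
  exact Finite.of_injective
    (fun v : {v : HeightOneSpectrum (𝓞 K) // Ideal.absNorm v.asIdeal ≤ N} =>
      (⟨v.1.asIdeal, v.2⟩ : {I : Ideal (𝓞 K) // Ideal.absNorm I ≤ N}))
    (fun v w hvw => Subtype.ext (HeightOneSpectrum.ext (congrArg Subtype.val hvw)))

theorem avg_add (g h : HeightOneSpectrum (𝓞 K) → ℝ) (N : ℕ) :
    avg (fun v => g v + h v) N = avg g N + avg h N := by
  have := finite_le (K := K) N
  unfold avg
  rw [finsum_add_distrib (Set.toFinite _) (Set.toFinite _), add_div]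

theorem avg_mul (c : ℝ) (g : HeightOneSpectrum (𝓞 K) → ℝ) (N : ℕ) :
    avg (fun v => c * g v) N = c * avg g N := by
  have := finite_le (K := K) N
  unfold avg
  rw [← mul_div_assoc, mul_finsum]

theorem avg_mono {g h : HeightOneSpectrum (𝓞 K) → ℝ} (hgh : ∀ v, g v ≤ h v) (N : ℕ) :
    avg g N ≤ avg h N := by
  have := finite_le (K := K) N
  unfold avg
  exact div_le_div_of_nonneg_right (finsum_le_finsum' (Set.toFinite _) (Set.toFinite _)
    (fun v => hgh v.1)) (Nat.cast_nonneg _)

theorem avg_const_le (c : ℝ) (hc : 0 ≤ c) (N : ℕ) :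
    avg (fun _ : HeightOneSpectrum (𝓞 K) => c) N ≤ c := by
  have := finite_le (K := K) N
  have := Fintype.ofFinite {v : HeightOneSpectrum (𝓞 K) // Ideal.absNorm v.asIdeal ≤ N}
  unfold avg
  have h : (∑ᶠ _ : {v : HeightOneSpectrum (𝓞 K) // Ideal.absNorm v.asIdeal ≤ N}, c) =
      (Nat.card {v : HeightOneSpectrum (𝓞 K) // Ideal.absNorm v.asIdeal ≤ N} : ℝ) * c := by
    rw [finsum_eq_sum_of_fintype, Finset.sum_const, nsmul_eq_mul, Finset.card_univ,
      Nat.card_eq_fintype_card]
  rw [h]
  refine div_le_of_le_mul₀ (Nat.cast_nonneg _) hc ?_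
  rw [mul_comm]

section
variable {A : Set (HeightOneSpectrum (𝓞 K))} {δ : ℝ}

/-- the average of `g` over `A` tends to `L` -/
def Mean (A : Set (HeightOneSpectrum (𝓞 K))) (δ : ℝ) (g : HeightOneSpectrum (𝓞 K) → ℝ)
    (L : ℝ) : Prop := Tendsto (avg (A.indicator g)) atTop (𝓝 (δ * L))

theorem Mean.add {g h : HeightOneSpectrum (𝓞 K) → ℝ} {L M : ℝ} (hg : Mean A δ g L)
    (hh : Mean A δ h M) : Mean A δ (fun v => g v + h v) (L + M) := by
  unfold Mean at *
  have : avg (A.indicator fun v => g v + h v) =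
      fun N => avg (A.indicator g) N + avg (A.indicator h) N := funext fun N => by
    rw [← avg_add]
    congr 1
    funext v
    by_cases hv : v ∈ A <;> simp [hv]
  rw [this, mul_add]
  exact hg.add hh

theorem Mean.mul {g : HeightOneSpectrum (𝓞 K) → ℝ} {L : ℝ} (c : ℝ) (hg : Mean A δ g L) :
    Mean A δ (fun v => c * g v) (c * L) := by
  unfold Mean at *
  have : avg (A.indicator fun v => c * g v) = fun N => c * avg (A.indicator g) N :=
    funext fun N => by
      rw [← avg_mul]
      congr 1
      funext v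
      by_cases hv : v ∈ A <;> simp [hv]
  have h2 : δ * (c * L) = c * (δ * L) := by ring
  rw [this, h2]
  exact hg.const_mul c

theorem Mean.congr {g h : HeightOneSpectrum (𝓞 K) → ℝ} {L M : ℝ} (hg : Mean A δ g L)
    (h1 : ∀ v, h v = g v) (h2 : M = L) : Mean A δ h M := by
  rw [funext h1, h2]
  exact hg

theorem mean_one (hA : HasDensity A δ) : Mean A δ (fun _ => (1 : ℝ)) 1 := by
  unfold Mean
  rw [mul_one]
  exact hA


theorem mean_poly {a w : HeightOneSpectrum (𝓞 K) → ℝ} (hA : HasDensity A δ)
    (h : LowMoments A a w) (c0 c1 c2 c3 c4 c5 : ℝ) :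
    Mean A δ (fun v => c0 + c1 * a v + c2 * w v + c3 * a v ^ 2 + c4 * (a v * w v) + c5 * w v ^ 2)
      (c0 + c3 + c5) := by
  have z : ∀ {g : HeightOneSpectrum (𝓞 K) → ℝ}, Tendsto (avg (A.indicator g)) atTop (𝓝 0) →
      Mean A δ g 0 := fun hg => by
    unfold Mean
    rwa [mul_zero]
  refine ((((((mean_one hA).mul (c0 + c3 + c5)).add ((z h.V).mul c1)).add ((z h.W).mul c2)).add
    ((z h.VV).mul c3)).add (((z h.VW).mul c4).add ((z h.WW).mul c5))).congr (fun v => ?_) ?_
  · ring
  · ring

/-- a lower bound for the lower density from a minorant of the characteristic function -/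
theorem lower_of_minorant {g : HeightOneSpectrum (𝓞 K) → ℝ} {L : ℝ} (hg : Mean A δ g L)
    (p : HeightOneSpectrum (𝓞 K) → Prop) (h1 : ∀ v, g v ≤ 1) (h0 : ∀ v, ¬ p v → g v ≤ 0) :
    LowerDensity {v | v ∈ A ∧ p v} (δ * L) := by
  intro ε hε
  have hev := hg.eventually (lt_mem_nhds (show δ * L - ε < δ * L by linarith))
  filter_upwards [hev] with N hN
  refine hN.le.trans (avg_mono (fun v => ?_) N)
  by_cases hv : v ∈ A
  · rw [Set.indicator_of_mem hv]
    by_cases hp : p v
    · rw [Set.indicator_of_mem (show v ∈ {v | v ∈ A ∧ p v} from ⟨hv, hp⟩)]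
      exact h1 v
    · rw [Set.indicator_of_notMem (show v ∉ {v | v ∈ A ∧ p v} from fun h => hp h.2)]
      exact h0 v hp
  · rw [Set.indicator_of_notMem hv,
      Set.indicator_of_notMem (show v ∉ {v | v ∈ A ∧ p v} from fun h => hv h.1)]

theorem LowerDensity.mono {B : Set (HeightOneSpectrum (𝓞 K))} {c d : ℝ} (h : LowerDensity B d)
    (hcd : c ≤ d) : LowerDensity B c := by
  intro ε hε
  filter_upwards [h ε hε] with N hN
  linarith

end

end

/-! ### the polynomials -/

section Polynomials

variable {x y : ℝ}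

/-- the polynomial for the sign of the trace -/
noncomputable def P (s w : ℝ) : ℝ :=
  -9156 / 1000000 + 260505 / 1000000 * s + -48111 / 1000000 * w + 135505 / 1000000 * s ^ 2 +
    -31515 / 1000000 * (s * w) + -63338 / 1000000 * w ^ 2

theorem region (hx : |x| ≤ 2) (hy : |y| ≤ 2) : 0 ≤ x * y + 1 + 3 - 2 * (x + y) ∧
    0 ≤ x * y + 1 + 3 + 2 * (x + y) := by
  obtain ⟨hx1, hx2⟩ := abs_le.1 hx
  obtain ⟨hy1, hy2⟩ := abs_le.1 hy
  constructor
  · nlinarith [mul_nonneg (sub_nonneg.2 hx2) (sub_nonneg.2 hy2)]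
  · nlinarith [mul_nonneg (by linarith : (0 : ℝ) ≤ x + 2) (by linarith : (0 : ℝ) ≤ y + 2)]

theorem P_nonpos {s w : ℝ} (hs : s ≤ 0) (h1 : 0 ≤ w + 3 + 2 * s) : P s w ≤ 0 := by
  unfold P
  rcases le_total (-(16 / 10)) s with h | h
  · nlinarith [sq_nonneg (w + 2 * 31515 / (4 * 63338) * s + 48111 / (2 * 63338)),
      mul_nonneg (neg_nonneg.2 hs) (by linarith : (0 : ℝ) ≤ s + 16 / 10)]
  · nlinarith [mul_nonneg h1 (by linarith : (0 : ℝ) ≤ -(16 / 10) - s), mul_nonneg h1 h1,
      sq_nonneg (s + 28165 / 10000)]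

theorem P_le_one {s w : ℝ} (hs : 0 ≤ s) (h1 : 0 ≤ w + 3 - 2 * s) : P s w ≤ 1 := by
  unfold P
  rcases le_total s (14 / 10) with h | h
  · nlinarith [sq_nonneg (w + 2 * 31515 / (4 * 63338) * s + 48111 / (2 * 63338)),
      mul_nonneg hs (by linarith : (0 : ℝ) ≤ 14 / 10 - s)]
  · nlinarith [mul_nonneg h1 (by linarith : (0 : ℝ) ≤ s - 14 / 10), mul_nonneg h1 h1,
      sq_nonneg (s - 28165 / 10000)]

end Polynomials

/-- the minorants for the large values of the trace -/
theorem tail {x y t : ℝ} (hx : |x| ≤ 2) (hy : |y| ≤ 2) (ht : t < 4) :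
    (x + y - t) * ((2 + x) * (2 + y)) / (16 * (4 - t)) ≤ 1 ∧
      (x + y ≤ t → (x + y - t) * ((2 + x) * (2 + y)) / (16 * (4 - t)) ≤ 0) := by
  obtain ⟨hx1, hx2⟩ := abs_le.1 hx
  obtain ⟨hy1, hy2⟩ := abs_le.1 hy
  have h4 : 0 < 16 * (4 - t) := by linarith
  have h0 : 0 ≤ (2 + x) * (2 + y) := mul_nonneg (by linarith) (by linarith)
  have h16 : (2 + x) * (2 + y) ≤ 16 := by nlinarith
  have hneg : x + y ≤ t → (x + y - t) * ((2 + x) * (2 + y)) / (16 * (4 - t)) ≤ 0 := fun h =>
    div_nonpos_of_nonpos_of_nonneg (mul_nonpos_of_nonpos_of_nonneg (by linarith) h0) h4.le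
  refine ⟨?_, hneg⟩
  rcases le_total (x + y) t with h | h
  · exact (hneg h).trans zero_le_one
  · rw [div_le_one h4, mul_comm 16]
    exact mul_le_mul (by linarith) h16 h0 (by linarith)


/-- Let `A` be a set of primes of the number field `K` of density `δ` (for instance all primes, or a ray
class) and `x`, `y` functions on the primes with values in `[-2, 2]` (the normalised Frobenius
polynomial of an abelian surface at `v` is `(T² - x_v T + 1) (T² - y_v T + 1)`) such that
`x + y` and `x y + 1` have the `LowMoments` of the group `USp(4)` over `A`. Then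
1. `x_v + y_v > 0` for a set of `v ∈ A` of lower density at least `0.063 δ`, and the same for
   `x_v + y_v < 0`;
2. for `0 ≤ t < 2/3` one has `x_v + y_v > t` for a set of `v ∈ A` of lower density at least
   `(2 - 3 t) / (16 (4 - t)) δ`, and the same for `x_v + y_v < -t`;
3. `x_v y_v < 0` for a set of `v ∈ A` of lower density at least `δ / 2`;
4. `|x_v - y_v| > 1` for a set of `v ∈ A` of lower density at least `δ / 2`. -/
theorem result (K : Type) [Field K] [NumberField K] (A : Set (HeightOneSpectrum (𝓞 K))) (δ : ℝ)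
    (hA : HasDensity A δ) (x y : HeightOneSpectrum (𝓞 K) → ℝ) (hx : ∀ v, |x v| ≤ 2)
    (hy : ∀ v, |y v| ≤ 2) (h : LowMoments A (fun v => x v + y v) (fun v => x v * y v + 1)) :
    (LowerDensity {v | v ∈ A ∧ 0 < x v + y v} (63 / 1000 * δ) ∧
      LowerDensity {v | v ∈ A ∧ x v + y v < 0} (63 / 1000 * δ)) ∧
    (∀ t : ℝ, 0 ≤ t → t < 2 / 3 →
      LowerDensity {v | v ∈ A ∧ t < x v + y v} ((2 - 3 * t) / (16 * (4 - t)) * δ) ∧
      LowerDensity {v | v ∈ A ∧ x v + y v < -t} ((2 - 3 * t) / (16 * (4 - t)) * δ)) ∧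
    LowerDensity {v | v ∈ A ∧ x v * y v < 0} (1 / 2 * δ) ∧
    LowerDensity {v | v ∈ A ∧ 1 < |x v - y v|} (1 / 2 * δ) := by
  have hδ : 0 ≤ δ := by
    refine ge_of_tendsto' hA fun N => ?_
    unfold avg
    refine div_nonneg ?_ (Nat.cast_nonneg _)
    exact finsum_nonneg fun v => Set.indicator_nonneg (fun _ _ => zero_le_one) _
  have hr := fun v => region (hx v) (hy v)
  have hm := mean_poly hA h
  refine ⟨⟨?_, ?_⟩, fun t ht0 ht => ⟨?_, ?_⟩, ?_, ?_⟩
  · refine (lower_of_minorant (hm (-9156 / 1000000) (260505 / 1000000) (-48111 / 1000000)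
      (135505 / 1000000) (-31515 / 1000000) (-63338 / 1000000)) (fun v => 0 < x v + y v)
      (fun v => ?_) (fun v hv => ?_)).mono ?_
    · rcases le_total 0 (x v + y v) with h0 | h0
      · exact P_le_one h0 (hr v).1
      · exact (P_nonpos h0 (hr v).2).trans zero_le_one
    · exact P_nonpos (not_lt.1 hv) (hr v).2
    · nlinarith
  · refine (lower_of_minorant (hm (-9156 / 1000000) (-(260505 / 1000000)) (-48111 / 1000000)
      (135505 / 1000000) (31515 / 1000000) (-63338 / 1000000)) (fun v => x v + y v < 0)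
      (fun v => ?_) (fun v hv => ?_)).mono ?_
    · rcases le_total 0 (x v + y v) with h0 | h0
      · have := P_nonpos (s := -(x v + y v)) (w := x v * y v + 1) (by linarith)
          (by linarith [(hr v).1])
        unfold P at this
        nlinarith
      · have := P_le_one (s := -(x v + y v)) (w := x v * y v + 1) (by linarith)
          (by linarith [(hr v).2])
        unfold P at this
        nlinarith
    · have := P_nonpos (s := -(x v + y v)) (w := x v * y v + 1) (by linarith [not_lt.1 hv])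
          (by linarith [(hr v).1])
      unfold P at this
      nlinarith
    · nlinarith
  · have h4 : 0 < 16 * (4 - t) := by linarith
    refine (lower_of_minorant (hm (-3 * t / (16 * (4 - t))) ((3 - 2 * t) / (16 * (4 - t)))
      (-t / (16 * (4 - t))) (2 / (16 * (4 - t))) (1 / (16 * (4 - t))) 0)
      (fun v => t < x v + y v) (fun v => ?_) (fun v hv => ?_)).mono (le_of_eq ?_)
    · refine le_of_eq_of_le ?_ (tail (hx v) (hy v) (by linarith : t < 4)).1
      field_simp
      ring
    · refine le_of_eq_of_le ?_ ((tail (hx v) (hy v) (by linarith : t < 4)).2 (not_lt.1 hv))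
      field_simp
      ring
    · field_simp
      ring
  · have h4 : 0 < 16 * (4 - t) := by linarith
    refine (lower_of_minorant (hm (-3 * t / (16 * (4 - t))) (-((3 - 2 * t) / (16 * (4 - t))))
      (-t / (16 * (4 - t))) (2 / (16 * (4 - t))) (-(1 / (16 * (4 - t)))) 0)
      (fun v => x v + y v < -t) (fun v => ?_) (fun v hv => ?_)).mono (le_of_eq ?_)
    · refine le_of_eq_of_le ?_ (tail (x := -x v) (y := -y v) (by rw [abs_neg]; exact hx v)
        (by rw [abs_neg]; exact hy v) (by linarith : t < 4)).1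
      field_simp
      ring
    · refine le_of_eq_of_le ?_ ((tail (x := -x v) (y := -y v) (by rw [abs_neg]; exact hx v)
        (by rw [abs_neg]; exact hy v) (by linarith : t < 4)).2 (by linarith [not_lt.1 hv]))
      field_simp
      ring
    · field_simp
      ring
  · refine (lower_of_minorant (hm (3 / 4) 0 (-1 / 2) 0 0 (-1 / 4)) (fun v => x v * y v < 0)
      (fun v => ?_) (fun v hv => ?_)).mono ?_
    · nlinarith [sq_nonneg (x v * y v + 2)]
    · obtain ⟨hx1, hx2⟩ := abs_le.1 (hx v)
      obtain ⟨hy1, hy2⟩ := abs_le.1 (hy v)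
      have := not_lt.1 hv
      nlinarith
    · linarith
  · refine (lower_of_minorant (hm (9 / 20) 0 (-1 / 2) (1 / 5) 0 (-3 / 20))
      (fun v => 1 < |x v - y v|) (fun v => ?_) (fun v hv => ?_)).mono ?_
    · obtain ⟨h1, h2⟩ := hr v
      nlinarith [mul_nonneg h1 h2, sq_nonneg (x v * y v + 2)]
    · have h1 : (x v - y v) ^ 2 ≤ 1 := by
        rw [← sq_abs]
        have := not_lt.1 hv
        nlinarith [abs_nonneg (x v - y v)]
      nlinarith [sq_nonneg (x v * y v)]
    · linarith

end Pool.Agent.Results.MP_6dc561_nt.SignsOfTraces
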