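import Pool.Agent.TH553.SY.Main

/-!
# The Sato-Tate conjecture for generic abelian surfaces from products of two symmetric powers

`A` is an abelian surface over a number field `K` and, for the primes `v` of good reduction, `α_v`,
`ᾱ_v`, `β_v`, `β̄_v` are the eigenvalues of `g_v`, that is `q_v^{-1/2}` times the eigenvalues of the
Frobenius element at `v` on `V = H¹(A)`; at the finitely many primes of bad reduction `α_v` and `β_v` are
any complex numbers of absolute value one (this changes the `L`-functions below by finitely many factors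
without zeros and poles in `Re s > 0`).  The class of `g_v` in `USp(4)` is determined by the traces
`a_v = tr g_v` and `b_v = tr Λ² g_v`, and the continuous class functions on `USp(4)` are the continuous
functions of these two numbers.  By Weyl's integration formula the Haar measure of `USp(4)` is given by the
density `(8/π²) (cos θ - cos φ)² sin² θ sin² φ` in the angles.

If the Sato-Tate group of `A` is `USp(4)`, which is the case that is open over `ℚ`, then Q1 is usually
derived from analytic properties of the `L`-functions of all the irreducible representations of `USp(4)`,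
a family with two parameters.  The theorem says that the symmetric powers of `V` and the products of two of
them are sufficient: if `L(Symⁱ V ⊗ Symʲ V, s)`, for all `i ≥ j`, has a meromorphic continuation to a
neighbourhood of each point of the line `Re s = 1` and has there no zeros and no poles except for a simple
pole at `s = 1` if `i = j`, then Q1 holds for `A`.  By the theory of Rankin-Selberg convolutions (Jacquet,
Piatetski-Shapiro, Shalika, Shahidi) this condition is satisfied if all `Symⁱ V` are (potentially) cuspidal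
automorphic, and no other representation of `USp(4)` is needed.  If the condition is known only at the
one point `s = 1`, the classes are still equidistributed in the sense of the analytic density.
-/

set_option autoImplicit false

namespace Pool.Agent.Results.MP_6dc561_nt.SymmetricPowersSuffice

open NumberField IsDedekindDomain Filter Topology ComplexConjugate
open scoped Real

variable {K : Type} [Field K] [NumberField K]

/-- The numbers `z, z̄, w, w̄`. -/
noncomputable def eigenvalues (z w : Circle) : Fin 4 → ℂ := ![z, conj (z : ℂ), w, conj (w : ℂ)]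

/-- The monomial `∏ u_k^{l_k}`. -/
noncomputable def monomial (u : Fin 4 → ℂ) (l : Fin 4 →₀ ℕ) : ℂ := ∏ k, u k ^ l k

/-- The exponents `l` with `l_0 + l_1 + l_2 + l_3 = i`. -/
def exponents (i : ℕ) : Finset (Fin 4 →₀ ℕ) := Finset.finsuppAntidiag Finset.univ i

/-- The `L`-function of `Symⁱ V ⊗ Symʲ V`: the Euler product of `∏ (1 - m m' q_v^{-s})⁻¹`, where `m` and
`m'` run over the monomials of degree `i` and `j` in `α_v, ᾱ_v, β_v, β̄_v` (the eigenvalues of the Frobenius
element on `Symⁱ V` and `Symʲ V`). -/
noncomputable def LFun (α β : HeightOneSpectrum (𝓞 K) → Circle) (i j : ℕ) (s : ℂ) : ℂ :=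
  ∏' v : HeightOneSpectrum (𝓞 K), (∏ p ∈ exponents i ×ˢ exponents j,
    (1 - monomial (eigenvalues (α v) (β v)) p.1 * monomial (eigenvalues (α v) (β v)) p.2 *
      (Ideal.absNorm v.asIdeal : ℂ) ^ (-s)))⁻¹

/-- The function `L`, given in `Re s > 1`, has a meromorphic continuation to a neighbourhood of `1 + iτ`
of order `-m` at `1 + iτ` (a pole of order `m` if `m > 0`, and neither a zero nor a pole if `m = 0`). -/
def HasPoleAt (L : ℂ → ℂ) (τ : ℝ) (m : ℤ) : Prop :=
  ∃ Λ : ℂ → ℂ, MeromorphicAt Λ (1 + τ * Complex.I) ∧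
    (∀ᶠ s in 𝓝 ((1 : ℂ) + τ * Complex.I), (1 : ℝ) < s.re → Λ s = L s) ∧
    meromorphicOrderAt Λ (1 + τ * Complex.I) = ((-m : ℤ) : WithTop ℤ)

/-- The pair `(α + ᾱ + β + β̄, 2 + (α + ᾱ)(β + β̄))` of the traces of `g` and `Λ² g`, for `g` with the
eigenvalues `α, ᾱ, β, β̄`. -/
noncomputable def traces (α β : Circle) : ℝ × ℝ :=
  (2 * (α : ℂ).re + 2 * (β : ℂ).re, 2 + (2 * (α : ℂ).re) * (2 * (β : ℂ).re))

/-- The integral over `USp(4)` of the class function `f(tr g, tr Λ² g)` (Weyl's formula). -/
noncomputable def haarIntegral (f : ℝ × ℝ → ℝ) : ℝ :=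
  ∫ θ in (0 : ℝ)..π, ∫ φ in (0 : ℝ)..π,
    f (2 * Real.cos θ + 2 * Real.cos φ, 2 + (2 * Real.cos θ) * (2 * Real.cos φ)) *
      (8 / π ^ 2 * (Real.cos θ - Real.cos φ) ^ 2 * Real.sin θ ^ 2 * Real.sin φ ^ 2)

/-- The average of `f` over the primes of `K` of norm at most `N`. -/
noncomputable def avg (f : HeightOneSpectrum (𝓞 K) → ℝ) (N : ℕ) : ℝ :=
  (∑ᶠ v : {v : HeightOneSpectrum (𝓞 K) // Ideal.absNorm v.asIdeal ≤ N}, f v.1) /
    (Nat.card {v : HeightOneSpectrum (𝓞 K) // Ideal.absNorm v.asIdeal ≤ N} : ℝ)

/-- The average of `f` with the weights `q_v^{-(1 + ε)}`. -/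
noncomputable def dirichletAvg (f : HeightOneSpectrum (𝓞 K) → ℝ) (ε : ℝ) : ℝ :=
  (∑' v : HeightOneSpectrum (𝓞 K), f v * (Ideal.absNorm v.asIdeal : ℝ) ^ (-(1 + ε))) /
    ∑' v : HeightOneSpectrum (𝓞 K), (Ideal.absNorm v.asIdeal : ℝ) ^ (-(1 + ε))

section Bridge

open Pool.Agent.TH553.ST Pool.Agent.W540.BE

theorem avg_eq (g : HeightOneSpectrum (𝓞 K) → ℝ) : avg g = mn g := by
  funext N
  have hs : ∀ v, v ∈ upto K N ↔ Ideal.absNorm v.asIdeal ≤ N := fun v => mem_upto
  let e : {v : HeightOneSpectrum (𝓞 K) // Ideal.absNorm v.asIdeal ≤ N} ≃ (upto K N) :=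
    Equiv.subtypeEquivRight fun v => (hs v).symm
  have hfin : Finite {v : HeightOneSpectrum (𝓞 K) // Ideal.absNorm v.asIdeal ≤ N} :=
    Finite.of_equiv _ e.symm
  unfold avg mn
  have h1 : (∑ᶠ v : {v : HeightOneSpectrum (𝓞 K) // Ideal.absNorm v.asIdeal ≤ N}, g v.1) =
      ∑ v ∈ upto K N, g v := by
    rw [← Finset.sum_coe_sort, ← finsum_eq_sum_of_fintype, ← finsum_comp_equiv e]
    rfl
  have h2 : Nat.card {v : HeightOneSpectrum (𝓞 K) // Ideal.absNorm v.asIdeal ≤ N} =
      (upto K N).card := by
    rw [Nat.card_congr e, Nat.card_eq_fintype_card, Fintype.card_coe]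
  rw [h1, h2, smul_eq_mul, div_eq_inv_mul]

theorem dirichletAvg_eq (g : HeightOneSpectrum (𝓞 K) → ℝ) (ε : ℝ) :
    dirichletAvg g ε = EP (nm K) ε g / EP (nm K) ε fun _ => 1 := by
  unfold dirichletAvg EP
  simp only [one_mul]
  rfl

theorem LFun_eq (α β : HeightOneSpectrum (𝓞 K) → Circle) (i j : ℕ) :
    LFun α β i j = Pool.Agent.TH553.SY.LF α β i j := rfl

end Bridge

/-- **Products of two symmetric powers are sufficient.**  Let `K` be a number field and `α_v`, `β_v`
complex numbers of absolute value one for the primes `v` of `K`.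

I.  Suppose that for all `i ≥ j ≥ 0` with `i ≥ 1` the function `L(Symⁱ V ⊗ Symʲ V, s)` has a meromorphic
continuation to a neighbourhood of the one point `s = 1`, with a simple pole at `s = 1` if `i = j` and
with neither a zero nor a pole there if `i > j`.  Then the classes with the eigenvalues
`α_v, ᾱ_v, β_v, β̄_v` are equidistributed in `USp(4)` for the analytic density.

II.  Suppose that for all these `i, j` and all real `τ` the function `L(Symⁱ V ⊗ Symʲ V, s)` has a
meromorphic continuation to a neighbourhood of `1 + iτ`, with a simple pole at `s = 1` if `i = j`, and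
with neither zeros nor poles at the points `1 + iτ` in all other cases.  Then these classes are
equidistributed in `USp(4)` for the natural density. -/
theorem result (K : Type) [Field K] [NumberField K] (α β : HeightOneSpectrum (𝓞 K) → Circle) :
    ((∀ i j : ℕ, j ≤ i → 1 ≤ i → HasPoleAt (LFun α β i j) 0 (if i = j then 1 else 0)) →
      ∀ f : ℝ × ℝ → ℝ, Continuous f →
        Tendsto (dirichletAvg fun v => f (traces (α v) (β v))) (𝓝[>] 0) (𝓝 (haarIntegral f))) ∧
    ((∀ i j : ℕ, j ≤ i → 1 ≤ i → ∀ τ : ℝ,
        HasPoleAt (LFun α β i j) τ (if i = j ∧ τ = 0 then 1 else 0)) →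
      ∀ f : ℝ × ℝ → ℝ, Continuous f →
        Tendsto (avg fun v => f (traces (α v) (β v))) atTop (𝓝 (haarIntegral f))) := by
  refine ⟨fun h f hf => ?_, fun h f hf => ?_⟩
  · have h1 := Pool.Agent.TH553.SY.law_an (α := α) (β := β) (fun i j hij hi => by
      obtain ⟨Λ, h1, h2, h3⟩ := h i j hij hi
      have e : (1 : ℂ) + ((0 : ℝ) : ℂ) * Complex.I = 1 := by simp
      rw [e] at h1 h2 h3
      exact ⟨Λ, h1, h2, h3⟩) hf
    exact h1.congr fun ε => (dirichletAvg_eq _ ε).symm
  · rw [avg_eq]
    exact Pool.Agent.TH553.SY.law_nat (α := α) (β := β) (fun i j hij hi τ => by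
      obtain ⟨Λ, h1, h2, h3⟩ := h i j hij hi τ
      refine ⟨Λ, h1, h2, ?_⟩
      rw [h3]
      have e : (if i = j ∧ τ = 0 then (1 : ℤ) else 0) =
          if τ = 0 then (if i = j then 1 else 0) else 0 := by
        by_cases h4 : τ = 0 <;> by_cases h5 : i = j <;> simp [h4, h5]
      rw [e]) hf

end Pool.Agent.Results.MP_6dc561_nt.SymmetricPowersSuffice
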